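import Pool.Agent.Helper10.GO.GoalsD

/-!
# Project GO (MP_6af536_nt): packet JD (helper57), from the recurrences to the jump data
-/

set_option autoImplicit false

namespace Pool.Agent.Helper57.GO

open Filter Topology Pool.Agent.Helper10.GO

/-- the lower Lipschitz bound for numbers -/
theorem low_aux {A b B C K u v : ℝ} (hA : 0 ≤ A) (hb : 1 ≤ b) (hB : 2 * B ≤ b) (hC : 0 ≤ C)
    (hK : 0 < K) (hu : K ≤ u) (hv : K ≤ v)
    (h : b * (u - K) ≤ A * (v - K) + B * (u - K) + C * K) : u ≤ (1 + 2 * A + 2 * C) * v := by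
  have h1 : 0 ≤ u - K := by linarith
  have h2 : (1 / 2) * (u - K) ≤ (b - B) * (u - K) := by
    apply mul_le_mul_of_nonneg_right _ h1
    linarith
  have h3 : (b - B) * (u - K) ≤ A * v + C * v := by
    have h4 : A * (v - K) ≤ A * v := mul_le_mul_of_nonneg_left (by linarith) hA
    have h5 : C * K ≤ C * v := mul_le_mul_of_nonneg_left hv hC
    have h6 : (b - B) * (u - K) = b * (u - K) - B * (u - K) := by ring
    linarith
  have h4 : u ≤ K + 2 * (A * v + C * v) := by linarith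
  have h5 : (1 + 2 * A + 2 * C) * v = v + 2 * (A * v + C * v) := by ring
  linarith

/-- the jump for numbers; `X = exp ((σ₁+σ₂) m)`, `Y = exp ((σ₂-ε') m)`, `Z = exp ((σ₂-ε) m)`,
`T = exp ((σ₁+ε) m)` -/
theorem jump_aux {A b B E C K u₀ u₁ u₂ X Y Z T : ℝ} (hb : 1 ≤ b) (hE : 1 ≤ E)
    (hB : 2 * B ≤ b) (hX : A ≤ 2 * X * E) (hY : Y * E ≤ b) (_hC : 0 ≤ C) (hK : 0 < K)
    (h0 : K ≤ u₀) (hY0 : 0 < Y) (hZ0 : 0 < Z) (hT0 : 0 < T) (hXZ : X = Z * T)
    (hZY : 32 * Z ≤ Y) (hr : b * (u₁ - K) ≤ A * (u₀ - K) + B * (u₁ - K) + E * (u₂ - K) + C * K)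
    (h01 : T * u₀ ≤ u₁) (hC1 : 2 * K ≤ u₁) (hC2 : 16 * C * K ≤ Y * u₁) : Z * u₁ ≤ u₂ := by
  have hE0 : 0 < E := by linarith
  have hu0 : 0 < u₀ := by linarith
  have hu1 : 0 < u₁ := by linarith
  -- left-hand side
  have h1 : (1 / 4) * (Y * E * u₁) ≤ (b - B) * (u₁ - K) := by
    have h2 : (1 / 2) * (Y * E) ≤ b - B := by linarith
    have h3 : (1 / 2) * u₁ ≤ u₁ - K := by linarith
    have h4 : ((1 / 2) * (Y * E)) * ((1 / 2) * u₁) ≤ (b - B) * (u₁ - K) :=
      mul_le_mul h2 h3 (by positivity) (by linarith)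
    calc (1 / 4) * (Y * E * u₁) = ((1 / 2) * (Y * E)) * ((1 / 2) * u₁) := by ring
      _ ≤ _ := h4
  have h2 : A * (u₀ - K) ≤ 2 * (Z * E * u₁) := by
    have h3 : A * (u₀ - K) ≤ (2 * X * E) * (u₀ - K) :=
      mul_le_mul_of_nonneg_right hX (by linarith)
    have h4 : (2 * X * E) * (u₀ - K) ≤ (2 * X * E) * u₀ := by
      have hX0 : 0 < X := by rw [hXZ]; positivity
      apply mul_le_mul_of_nonneg_left _ (by positivity)
      linarith
    have h5 : (2 * X * E) * u₀ = 2 * (Z * E * (T * u₀)) := by rw [hXZ]; ring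
    have h6 : Z * E * (T * u₀) ≤ Z * E * u₁ := mul_le_mul_of_nonneg_left h01 (by positivity)
    linarith
  have h3 : 2 * (Z * E * u₁) ≤ (1 / 16) * (Y * E * u₁) := by
    have h4 : 32 * Z * (E * u₁) ≤ Y * (E * u₁) := mul_le_mul_of_nonneg_right hZY (by positivity)
    have h5 : Y * E * u₁ = Y * (E * u₁) := by ring
    have h6 : Z * E * u₁ = Z * (E * u₁) := by ring
    rw [h5, h6]
    linarith
  have h4 : C * K ≤ (1 / 16) * (Y * E * u₁) := by
    have h5 : Y * u₁ ≤ Y * E * u₁ := by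
      have h6 : Y * u₁ * 1 ≤ Y * u₁ * E := mul_le_mul_of_nonneg_left hE (by positivity)
      calc Y * u₁ = Y * u₁ * 1 := by ring
        _ ≤ Y * u₁ * E := h6
        _ = Y * E * u₁ := by ring
    linarith
  have h5 : (b - B) * (u₁ - K) = b * (u₁ - K) - B * (u₁ - K) := by ring
  have h6 : (1 / 8) * (Y * E * u₁) ≤ E * (u₂ - K) := by linarith
  have h7 : E * (u₂ - K) ≤ E * u₂ := mul_le_mul_of_nonneg_left (by linarith) hE0.le
  have h8 : E * (Z * u₁) ≤ E * u₂ := by
    have h9 : 8 * Z * (E * u₁) ≤ Y * (E * u₁) :=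
      mul_le_mul_of_nonneg_right (by linarith) (by positivity)
    have h10 : Y * E * u₁ = Y * (E * u₁) := by ring
    have h11 : E * (Z * u₁) = Z * (E * u₁) := by ring
    rw [h11]
    rw [h10] at h6
    linarith
  exact le_of_mul_le_mul_left h8 hE0

/-- PACKET JD. -/
theorem jd : S_JD := by
  intro k U κ Λ hκ hupd hle hup hlow hrec
  have hle' : ∀ i J n, κ i J ≤ U (Function.update J i n) := fun i J n => by
    rw [← hupd i J n]
    exact hle _ _
  refine ⟨hκ, hupd, hle, ?_, ?_⟩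
  · obtain ⟨δ, C, n₀, hδ, hC, h1⟩ := hup
    obtain ⟨A, b, B, C2, n₁, hb, hB, hC2, h2⟩ := hlow
    have hA : (0 : ℝ) ≤ A := Nat.cast_nonneg A
    have hb' : (1 : ℝ) ≤ b := by exact_mod_cast hb
    have hB' : 2 * (B : ℝ) ≤ b := by exact_mod_cast hB
    refine ⟨1 + δ + C + 2 * A + 2 * C2, max n₀ n₁, by linarith, ?_⟩
    intro i J hJ
    have hK := hκ i J
    have hu := hle i J
    have hv := hle' i J (J i + 1)
    have hu0 : 0 < U J := by linarith
    have hv0 : 0 < U (Function.update J i (J i + 1)) := by linarith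
    constructor
    · have h3 := h1 i J (le_trans (le_max_left _ _) hJ)
      have h4 : δ * (U J - κ i J) ≤ δ * U J := mul_le_mul_of_nonneg_left (by linarith) hδ
      have h5 : C * κ i J ≤ C * U J := mul_le_mul_of_nonneg_left hu hC
      have h6 : 0 ≤ (2 * A + 2 * C2) * U J := mul_nonneg (by linarith) hu0.le
      nlinarith
    · have h3 := h2 i J (le_trans (le_max_right _ _) hJ)
      have h4 := low_aux hA hb' hB' hC2 hK hu hv h3
      have h5 : 0 ≤ (δ + C) * U (Function.update J i (J i + 1)) :=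
        mul_nonneg (by linarith) hv0.le
      nlinarith
  · intro σ₁ σ₂ hσ hgap ε hε
    have hε' : 0 < ε / 4 := by linarith
    have hev := hrec σ₁ σ₂ hσ hgap (ε / 4) hε'
    have hlim : Tendsto (fun m : ℕ => (3 * ε / 4) * (m : ℝ)) atTop atTop :=
      (tendsto_natCast_atTop_atTop).const_mul_atTop (by linarith)
    have hev2 : ∀ᶠ m : ℕ in atTop, Real.log 32 ≤ (3 * ε / 4) * (m : ℝ) :=
      hlim.eventually_ge_atTop _
    obtain ⟨m, ⟨A, b, B, E, C, n₀, hb, hE, hB, hA, hbE, hC, hr⟩, hm32, hm1⟩ :=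
      (hev.and (hev2.and (eventually_ge_atTop 1))).exists
    have hY0 : 0 < Real.exp ((σ₂ - ε / 4) * m) := Real.exp_pos _
    set Y := Real.exp ((σ₂ - ε / 4) * m) with hY
    refine ⟨m, hm1, max 2 (16 * C / Y), n₀, le_trans (by norm_num) (le_max_left _ _), ?_⟩
    intro i J hJ h1 h2
    have hK := hκ i J
    have hmax1 : 2 * κ i J ≤ U (Function.update J i (J i + m)) :=
      le_trans (mul_le_mul_of_nonneg_right (le_max_left _ _) hK.le) h2
    have hmax2 : 16 * C / Y * κ i J ≤ U (Function.update J i (J i + m)) :=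
      le_trans (mul_le_mul_of_nonneg_right (le_max_right _ _) hK.le) h2
    have hmax3 : 16 * C * κ i J ≤ Y * U (Function.update J i (J i + m)) := by
      have h3 := mul_le_mul_of_nonneg_left hmax2 hY0.le
      have h4 : Y * (16 * C / Y * κ i J) = 16 * C * κ i J := by
        field_simp
      linarith
    refine jump_aux (A := A) (b := b) (B := B) (E := E) (C := C) (K := κ i J) (u₀ := U J)
      (X := Real.exp ((σ₁ + σ₂) * m)) (Y := Y) (T := Real.exp ((σ₁ + ε) * m))
      (by exact_mod_cast hb) (by exact_mod_cast hE) (by exact_mod_cast hB) hA hbE hC hK (hle i J)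
      hY0 (Real.exp_pos _) (Real.exp_pos _) ?_ ?_ (hr i J hJ) h1 hmax1 hmax3
    · rw [← Real.exp_add]
      congr 1
      ring
    · have h3 : (32 : ℝ) = Real.exp (Real.log 32) := (Real.exp_log (by norm_num)).symm
      rw [h3, ← Real.exp_add, hY, Real.exp_le_exp]
      have h4 : (σ₂ - ε / 4) * m = (σ₂ - ε) * m + 3 * ε / 4 * m := by ring
      rw [h4]
      linarith

end Pool.Agent.Helper57.GO
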